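import Pool.Agent.Helper37.Fd.Rel
import Pool.Agent.Helper37.Fd.Almost
import Pool.Agent.Helper37.Fd.Var

/-!
# MP_b583a4_nt: finitely many Frobenii in any set of positive density detect all algebraic relations

`G` is a profinite group with finitely many open subgroups of each index (in the application the
Galois group of the maximal extension of `ℚ` unramified outside a finite set of primes), `D` is any
subset (the Frobenius elements of a set of primes), `E` a finite extension of `ℚ_p`.  There is a
finite subset `R` of `D`, depending only on `G`, `D`, `E`, the dimensions and a bound `d` for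
degrees, such that a polynomial relation of degree at most `d` between `V`, the `ρ i` and the `σ j`
which holds on `R`, and which is not trivial in `V` at almost all points of the closure of `D`,
forces `V` to be a twist of some `ρ i`.
-/

set_option autoImplicit false
open MeasureTheory Pool.Agent.Helper27.FM Pool.Agent.Helper37.Fd

namespace Pool.Agent.Results.MP_b583a4_nt.FiniteRelation

theorem result (p : ℕ) [hp : Fact p.Prime]
    -- the coefficient field, a finite extension of `ℚ_p`
    {E : Type*} [NontriviallyNormedField E] [IsUltrametricDist E] [ProperSpace E]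
    [NormedAlgebra ℚ_[p] E]
    -- a profinite group with finitely many open subgroups of each index, with a Haar measure
    {G : Type*} [Group G] [TopologicalSpace G] [IsTopologicalGroup G] [CompactSpace G]
    [TotallyDisconnectedSpace G] [MeasurableSpace G] [BorelSpace G]
    (μ : Measure G) [μ.IsHaarMeasure] [μ.Regular]
    (hfin : ∀ m : ℕ, {U : Subgroup G | IsOpen (U : Set G) ∧ U.index ≤ m}.Finite)
    -- a subset
    (D : Set G)
    -- the dimensions and a bound for the degree
    {ι : Type*} [Finite ι] {J : Type*} [Finite J] (n : J → ℕ) (d : ℕ) :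
    ∃ R : Set G, R ⊆ D ∧ R.Finite ∧
      ∀ (V : G →* GL (Fin 2) E) (ρ : ι → G →* GL (Fin 2) E) (σ : ∀ j, G →* GL (Fin (n j)) E)
        (P : MvPolynomial (Var ι J n) E),
        Continuous V → StronglyIrreducible V → (∀ i, Continuous (ρ i)) →
        (∀ j, Continuous (σ j)) → (∀ j, ¬ AdOccurs V (σ j)) → P.totalDegree ≤ d →
        (∀ r ∈ R,
          MvPolynomial.eval (entries (V r) (fun i => ρ i r) (fun j => σ j r)) P = 0) →
        μ {g | g ∈ closure D ∧
          ∃ x : Matrix (Fin 2) (Fin 2) E, x.det = (V g : Matrix (Fin 2) (Fin 2) E).det ∧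
            MvPolynomial.eval (entries x (fun i => ρ i g) (fun j => σ j g)) P ≠ 0} ≠ 0 →
        ∃ i, IsTwist V (ρ i) := by
  obtain ⟨R, hRD, hRf, hR⟩ := almost_determination p E μ hfin D
    (Module.finrank E (MvPolynomial.restrictTotalDegree (Var ι J n) E d))
  refine ⟨R, hRD, hRf, fun V ρ σ P hV hirr hρ hσ hocc hP hr hne => ?_⟩
  obtain ⟨f, S, hS, hfr, hSf, hf⟩ := exists_polyvar hV hρ hσ d P hP
  have hf0 := hR f S hS hfr hSf (fun r hrR => by rw [hf]; exact hr r hrR)
  refine twist_of_relation p μ V hV hirr ρ hρ n σ hσ hocc P ?_
  intro h0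
  apply hne
  refine measure_mono_null ?_ (measure_union_null hf0 h0)
  rintro g ⟨hgD, x, hx, hx0⟩
  by_cases hfg : f g = 0
  · right
    exact ⟨by rw [← hf]; exact hfg, x, hx, hx0⟩
  · left
    exact ⟨hgD, hfg⟩

end Pool.Agent.Results.MP_b583a4_nt.FiniteRelation
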